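import Mathlib
import Pool.Agent.R263.ST.Defs
import Pool.Agent.R263.ST.S1
import Pool.Agent.R263.ST.S2
import Pool.Agent.R263.ST.S3
import Pool.Agent.R263.ST.S4
import Pool.Agent.R263.ST.S5
import Pool.Agent.R263.ST.S6
import Pool.Agent.R263.ST.S7
import Pool.Agent.R263.ST.S8
import Pool.Agent.R263.ST.Final

/-!
# Optimal connected stiffeners of a disk need not touch the boundary

The plane is `ℂ`; `‖fderiv ℝ v z‖` is the Euclidean length of the gradient of `v` at `z`.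
`Test Ω v`  : `v` is smooth with compact support inside `Ω`;
`quot Ω m μ v` : the Rayleigh quotient;
`lam Ω m μ` : the first eigenvalue;
`Adm Ω L μ` : the admissible class (measures on the closure of `Ω` of mass at most `L` with
connected support `S` and `μ ≥ H¹ restricted to S`).
-/

namespace Pool.Agent.Results.MP_a4170f_an.InteriorStiffener

open MeasureTheory Set Metric
open Pool.Agent.R263.ST

/-- `μ` is a maximizer of the relaxed connected-stiffener problem. -/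
def IsMaximizer (Ω : Set ℂ) (L m : ℝ) (μ : Measure ℂ) : Prop :=
  Adm Ω L μ ∧ ∀ ν : Measure ℂ, Adm Ω L ν → lam Ω m ν ≤ lam Ω m μ

theorem result :
    ∃ R : ℝ, 0 < R ∧ ∀ L : ℝ, 0 < L → ∃ m0 : ℝ, 0 < m0 ∧ ∀ m : ℝ, 0 < m → m < m0 →
      (∃ μ0 : Measure ℂ, Adm (ball 0 R) L μ0 ∧ μ0.support ⊆ ball 0 R ∧ ∃ δ : ℝ, 0 < δ ∧
        ∀ μ : Measure ℂ, Adm (ball 0 R) L μ →
          (μ.support ∩ frontier (ball (0 : ℂ) R)).Nonempty →
          lam (ball 0 R) m μ + δ ≤ lam (ball 0 R) m μ0) ∧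
      (∀ μ : Measure ℂ, IsMaximizer (ball 0 R) L m μ → μ.support ⊆ ball 0 R) := by
  have h0 := stmtA0
  have h1 := stmtA1
  have h2 := stmtA2 h0 h1
  have h3 := stmtA3 h0 h2
  have hB2 := stmtB2 h0 h1
  have hLow := stmtLow h0 h1 h2 h3 stmtB1 hB2 stmtD
  obtain ⟨R, hR, hmain⟩ := stmtMain h1 (stmtC h1 h2) stmtD (stmtE h0 h1 h2) hLow
  refine ⟨R, hR, ?_⟩
  intro L hL
  obtain ⟨m0, hm0, hmain2⟩ := hmain L hL
  refine ⟨m0, hm0, ?_⟩
  intro m hm hmm
  have key := hmain2 m hm hmm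
  refine ⟨key, ?_⟩
  intro μ hμ
  obtain ⟨μ0, hadm, -, δ, hδ, hcomp⟩ := key
  have hno : ¬ (μ.support ∩ frontier (ball (0 : ℂ) R)).Nonempty := by
    intro ht
    have h5 := hcomp μ hμ.1 ht
    have h6 := hμ.2 μ0 hadm
    linarith
  intro z hz
  have hcl : z ∈ closure (ball (0 : ℂ) R) := by
    by_contra hcon
    have hopen : (closure (ball (0 : ℂ) R))ᶜ ∈ nhds z :=
      isClosed_closure.isOpen_compl.mem_nhds hcon
    have h7 := (Measure.mem_support_iff_forall (μ := μ) z).1 hz _ hopen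
    rw [hμ.1.onClosure] at h7
    exact lt_irrefl _ h7
  by_contra hcon
  apply hno
  refine ⟨z, hz, ?_⟩
  rw [frontier, isOpen_ball.interior_eq]
  exact ⟨hcl, hcon⟩

end Pool.Agent.Results.MP_a4170f_an.InteriorStiffener
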